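import Pool.Agent.V5helper87.ZM.Stm

/-!
# PROJECT ZM, job FIL: equivariant, eventually invariant families of preimages

Written by helper18.
-/

set_option autoImplicit false

namespace Pool.Agent.V5helper18.ZM.FIL

open Pool.Agent.V5helper87.ZM

theorem t_FIL : S_FIL := by
  classical
  intro G _ C π t hπ hC ht V W aV aW dd P P' PW PW' haV hdd hP hP' hPt hPt' w hw hex hN
  obtain ⟨N0, hN1, hN2⟩ := hN
  have hπ1 : π 1 = 0 := by
    have := hπ 1 1
    rw [mul_one] at this
    omega
  have hπinv : ∀ g, π g⁻¹ = -π g := fun g => by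
    have := hπ g g⁻¹
    rw [mul_inv_cancel, hπ1] at this
    omega
  have hπt : ∀ k : ℤ, π (t ^ k) = k := by
    intro k
    induction k using Int.induction_on with
    | zero => rw [zpow_zero, hπ1]
    | succ n ih => rw [zpow_add_one, hπ, ih, ht]
    | pred n ih => rw [zpow_sub_one, hπ, ih, hπinv, ht]; ring
  obtain ⟨M, hM0, hM⟩ : ∃ M : ℤ, N0 ≤ M ∧ 1 ≤ M := ⟨max N0 1, le_max_left _ _, le_max_right _ _⟩
  choose y hy using fun k : ℤ => hex (t ^ k)
  obtain ⟨v, hv⟩ : ∃ v : ℤ → V, v = fun k => if M ≤ k then P^[(k - M).toNat] (y M)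
      else if k ≤ -M then P'^[(-M - k).toNat] (y (-M)) else y k := ⟨_, rfl⟩
  have up : ∀ n : ℕ, dd (P^[n] (y M)) = w (t ^ (M + n)) := by
    intro n
    induction n with
    | zero => rw [Function.iterate_zero_apply, hy, Nat.cast_zero, add_zero]
    | succ n ih =>
      rw [Function.iterate_succ_apply', hP, ih, ← hN1 _ (by rw [hπt]; omega), ← zpow_one_add]
      congr 2
      push_cast
      ring
  have down : ∀ n : ℕ, dd (P'^[n] (y (-M))) = w (t ^ (-M - n)) := by
    intro n
    induction n with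
    | zero => rw [Function.iterate_zero_apply, hy, Nat.cast_zero, sub_zero]
    | succ n ih =>
      rw [Function.iterate_succ_apply', hP', ih, ← hN2 _ (by rw [hπt]; omega)]
      congr 1
      rw [← zpow_neg_one, ← zpow_add]
      congr 1
      push_cast
      ring
  have hdv : ∀ k, dd (v k) = w (t ^ k) := by
    intro k
    rw [hv]
    by_cases h1 : M ≤ k
    · simp only [if_pos h1]
      rw [up]
      congr 2
      omega
    · simp only [if_neg h1]
      by_cases h2 : k ≤ -M
      · simp only [if_pos h2]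
        rw [down]
        congr 2
        omega
      · simp only [if_neg h2]
        exact hy k
  have hvu : ∀ k, M ≤ k → v (k + 1) = P (v k) := by
    intro k hk
    rw [hv]
    simp only [if_pos hk, if_pos (by omega : M ≤ k + 1)]
    rw [← Function.iterate_succ_apply' P]
    congr 1
    omega
  have hvd : ∀ k, k ≤ -M → v (k - 1) = P' (v k) := by
    intro k hk
    rw [hv]
    simp only [if_pos hk, if_neg (by omega : ¬ M ≤ k), if_neg (by omega : ¬ M ≤ k - 1),
      if_pos (by omega : k - 1 ≤ -M)]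
    rw [← Function.iterate_succ_apply' P']
    congr 1
    omega
  have hmem : ∀ g, g * t ^ (-π g) ∈ C := by
    intro g
    rw [hC, hπ, hπt]
    omega
  have hf : ∀ (g : G) (k : ℤ) (hk : k = π g) (h : g * t ^ (-k) ∈ C),
      aV ⟨g * t ^ (-π g), hmem g⟩ (v (π g)) = aV ⟨g * t ^ (-k), h⟩ (v k) := by
    intro g k hk h
    subst hk
    rfl
  refine ⟨fun g => aV ⟨g * t ^ (-π g), hmem g⟩ (v (π g)), ?_, ?_, M, ?_, ?_⟩
  · intro c g
    have hc : π (c : G) = 0 := (hC _).1 c.2
    have e : π g = π ((c : G) * g) := by rw [hπ, hc, zero_add]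
    have h1 : (c : G) * g * t ^ (-π g) ∈ C := by
      rw [mul_assoc]
      exact C.mul_mem c.2 (hmem g)
    have h2 := hf ((c : G) * g) (π g) e h1
    refine h2.trans ?_
    rw [← haV]
    congr 1
    apply Subtype.ext
    exact mul_assoc _ _ _
  · intro g
    change dd (aV _ _) = _
    rw [hdd, hdv, ← hw]
    congr 1
    change g * t ^ (-π g) * t ^ (π g) = g
    rw [mul_assoc, ← zpow_add, neg_add_cancel, zpow_zero, mul_one]
  · intro g hg
    have e : π g + 1 = π (t * g) := by rw [hπ, ht]; ring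
    have h1 : t * g * t ^ (-(π g + 1)) ∈ C := by
      have := hmem (t * g)
      rwa [← e] at this
    have h2 := hf (t * g) (π g + 1) e h1
    refine h2.trans ?_
    rw [hvu _ hg]
    refine (hPt ⟨g * t ^ (-π g), hmem g⟩ _ ?_ _).symm
    change t * g * t ^ (-(π g + 1)) = t * (g * t ^ (-π g)) * t⁻¹
    rw [neg_add, zpow_add, zpow_neg_one]
    simp only [mul_assoc]
  · intro g hg
    have e : π g - 1 = π (t⁻¹ * g) := by rw [hπ, hπinv, ht]; ring
    have h1 : t⁻¹ * g * t ^ (-(π g - 1)) ∈ C := by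
      have := hmem (t⁻¹ * g)
      rwa [← e] at this
    have h2 := hf (t⁻¹ * g) (π g - 1) e h1
    refine h2.trans ?_
    rw [hvd _ hg]
    refine (hPt' ⟨g * t ^ (-π g), hmem g⟩ _ ?_ _).symm
    change t⁻¹ * g * t ^ (-(π g - 1)) = t⁻¹ * (g * t ^ (-π g)) * t
    rw [neg_sub, sub_eq_neg_add, zpow_add, zpow_one]
    simp only [mul_assoc]

end Pool.Agent.V5helper18.ZM.FIL
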